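import Mathlib

/-!
# Framed graphs: adding a path with leaves which fixes the classes of a vertex partition
-/

set_option autoImplicit false
set_option maxHeartbeats 400000

namespace Pool.Agent.R715.Enc

/-- vertices of the framed graph -/
abbrev FV (W : Type) (N : ℕ) := W ⊕ (Fin (N + 1) ⊕ Fin (N + 1))

variable {W : Type} {N : ℕ}

/-- adjacency of the framed graph -/
def fAdj (X : SimpleGraph W) (κ : W → Fin (N + 1)) : FV W N → FV W N → Prop
  | Sum.inl u, Sum.inl v => X.Adj u v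
  | Sum.inl u, Sum.inr (Sum.inl i) => κ u = i
  | Sum.inr (Sum.inl i), Sum.inl u => κ u = i
  | Sum.inr (Sum.inl i), Sum.inr (Sum.inl j) => (i : ℕ) + 1 = j ∨ (j : ℕ) + 1 = i
  | Sum.inr (Sum.inl i), Sum.inr (Sum.inr j) => i = j
  | Sum.inr (Sum.inr i), Sum.inr (Sum.inl j) => i = j
  | Sum.inl _, Sum.inr (Sum.inr _) => False
  | Sum.inr (Sum.inr _), Sum.inl _ => False
  | Sum.inr (Sum.inr _), Sum.inr (Sum.inr _) => False

/-- the framed graph -/
def fr (X : SimpleGraph W) (κ : W → Fin (N + 1)) : SimpleGraph (FV W N) where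
  Adj := fAdj X κ
  symm := ⟨by
    rintro (u | i | i) (v | j | j) h
    · exact SimpleGraph.Adj.symm (G := X) h
    · exact h
    · exact h
    · exact h
    · exact Or.symm h
    · exact Eq.symm h
    · exact h
    · exact Eq.symm h
    · exact h⟩
  loopless := ⟨by
    rintro (u | i | i) h
    · exact X.loopless.irrefl _ h
    · rcases h with h | h <;> omega
    · exact h⟩

variable (X : SimpleGraph W) (κ : W → Fin (N + 1))

theorem a_ww (u v : W) : (fr X κ).Adj (Sum.inl u) (Sum.inl v) ↔ X.Adj u v := Iff.rfl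
theorem a_wp (u : W) (i : Fin (N + 1)) :
    (fr X κ).Adj (Sum.inl u) (Sum.inr (Sum.inl i)) ↔ κ u = i := Iff.rfl
theorem a_pw (u : W) (i : Fin (N + 1)) :
    (fr X κ).Adj (Sum.inr (Sum.inl i)) (Sum.inl u) ↔ κ u = i := Iff.rfl
theorem a_pp (i j : Fin (N + 1)) :
    (fr X κ).Adj (Sum.inr (Sum.inl i)) (Sum.inr (Sum.inl j)) ↔
      ((i : ℕ) + 1 = j ∨ (j : ℕ) + 1 = i) := Iff.rfl
theorem a_pl (i j : Fin (N + 1)) :
    (fr X κ).Adj (Sum.inr (Sum.inl i)) (Sum.inr (Sum.inr j)) ↔ i = j := Iff.rfl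
theorem a_lp (i j : Fin (N + 1)) :
    (fr X κ).Adj (Sum.inr (Sum.inr i)) (Sum.inr (Sum.inl j)) ↔ i = j := Iff.rfl
theorem a_wl (u : W) (i : Fin (N + 1)) :
    ¬ (fr X κ).Adj (Sum.inl u) (Sum.inr (Sum.inr i)) := fun h => h
theorem a_lw (u : W) (i : Fin (N + 1)) :
    ¬ (fr X κ).Adj (Sum.inr (Sum.inr i)) (Sum.inl u) := fun h => h
theorem a_ll (i j : Fin (N + 1)) :
    ¬ (fr X κ).Adj (Sum.inr (Sum.inr i)) (Sum.inr (Sum.inr j)) := fun h => h

/-- exactly one neighbour -/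
def Lf {T : Type} (Y : SimpleGraph T) (x : T) : Prop := ∃ y, ∀ z, Y.Adj x z ↔ z = y

/-- adjacent to a leaf -/
def PP {T : Type} (Y : SimpleGraph T) (x : T) : Prop := ∃ y, Lf Y y ∧ Y.Adj x y

theorem Lf.map {T : Type} {Y : SimpleGraph T} {x : T} (h : Lf Y x) (s : Y ≃g Y) : Lf Y (s x) := by
  obtain ⟨y, hy⟩ := h
  refine ⟨s y, fun z => ?_⟩
  obtain ⟨z', rfl⟩ := s.surjective z
  rw [s.map_adj_iff, hy, s.injective.eq_iff]

theorem Lf_iff {T : Type} {Y : SimpleGraph T} (x : T) (s : Y ≃g Y) : Lf Y (s x) ↔ Lf Y x := by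
  refine ⟨fun h => ?_, fun h => h.map s⟩
  have := h.map s.symm
  rwa [show s.symm (s x) = x from s.toEquiv.symm_apply_apply x] at this

theorem PP.map {T : Type} {Y : SimpleGraph T} {x : T} (h : PP Y x) (s : Y ≃g Y) : PP Y (s x) := by
  obtain ⟨y, hy, hxy⟩ := h
  exact ⟨s y, hy.map s, s.map_adj_iff.2 hxy⟩

theorem PP_iff {T : Type} {Y : SimpleGraph T} (x : T) (s : Y ≃g Y) : PP Y (s x) ↔ PP Y x := by
  refine ⟨fun h => ?_, fun h => h.map s⟩
  have := h.map s.symm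
  rwa [show s.symm (s x) = x from s.toEquiv.symm_apply_apply x] at this

theorem Lf_l (i : Fin (N + 1)) : Lf (fr X κ) (Sum.inr (Sum.inr i)) := by
  refine ⟨Sum.inr (Sum.inl i), ?_⟩
  rintro (v | j | j)
  · exact ⟨fun h => (a_lw X κ _ _ h).elim, fun h => by simp at h⟩
  · rw [a_lp]
    constructor
    · rintro rfl; rfl
    · intro h
      have := Sum.inl.inj (Sum.inr.inj h)
      exact this.symm
  · exact ⟨fun h => (a_ll X κ _ _ h).elim, fun h => by simp at h⟩

theorem not_Lf_of_two {T : Type} {Y : SimpleGraph T} {x y z : T} (h1 : Y.Adj x y) (h2 : Y.Adj x z)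
    (h : y ≠ z) : ¬ Lf Y x := by
  rintro ⟨t, ht⟩
  exact h (((ht y).1 h1).trans ((ht z).1 h2).symm)

variable {X κ}

theorem not_Lf_p (hN : 1 ≤ N) (i : Fin (N + 1)) : ¬ Lf (fr X κ) (Sum.inr (Sum.inl i)) := by
  have h1 : (fr X κ).Adj (Sum.inr (Sum.inl i)) (Sum.inr (Sum.inr i)) := (a_pl X κ i i).2 rfl
  by_cases hi : (i : ℕ) = 0
  · have h2 : (fr X κ).Adj (Sum.inr (Sum.inl i)) (Sum.inr (Sum.inl ⟨1, by omega⟩)) := by
      rw [a_pp]; left; rw [hi]
    exact not_Lf_of_two h1 h2 (by simp)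
  · have h2 : (fr X κ).Adj (Sum.inr (Sum.inl i)) (Sum.inr (Sum.inl ⟨i - 1, by omega⟩)) := by
      rw [a_pp]; right
      show (i : ℕ) - 1 + 1 = i
      omega
    exact not_Lf_of_two h1 h2 (by simp)

theorem not_Lf_w (hX : ∀ u, ∃ v, X.Adj u v) (u : W) : ¬ Lf (fr X κ) (Sum.inl u) := by
  obtain ⟨v, hv⟩ := hX u
  have h1 : (fr X κ).Adj (Sum.inl u) (Sum.inl v) := hv
  have h2 : (fr X κ).Adj (Sum.inl u) (Sum.inr (Sum.inl (κ u))) := (a_wp X κ u _).2 rfl
  exact not_Lf_of_two h1 h2 (by simp)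

theorem PP_p (i : Fin (N + 1)) : PP (fr X κ) (Sum.inr (Sum.inl i)) :=
  ⟨Sum.inr (Sum.inr i), Lf_l X κ i, (a_pl X κ i i).2 rfl⟩

theorem not_PP_w (hN : 1 ≤ N) (hX : ∀ u, ∃ v, X.Adj u v) (u : W) :
    ¬ PP (fr X κ) (Sum.inl u) := by
  rintro ⟨y | i | i, hy, h⟩
  · exact not_Lf_w hX y hy
  · exact not_Lf_p hN i hy
  · exact a_wl X κ u i h

theorem not_PP_l (hN : 1 ≤ N) (i : Fin (N + 1)) : ¬ PP (fr X κ) (Sum.inr (Sum.inr i)) := by
  rintro ⟨y | j | j, hy, h⟩
  · exact a_lw X κ _ _ h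
  · exact not_Lf_p hN j hy
  · exact a_ll X κ _ _ h

section aut

variable (hN : 1 ≤ N) (hX : ∀ u, ∃ v, X.Adj u v)
include hN hX

theorem s_w (s : fr X κ ≃g fr X κ) (u : W) : ∃ u', s (Sum.inl u) = Sum.inl u' := by
  rcases h : s (Sum.inl u) with u' | i | i
  · exact ⟨u', rfl⟩
  · exfalso
    have h1 := PP_p (X := X) (κ := κ) i
    rw [← h, PP_iff] at h1
    exact not_PP_w hN hX u h1
  · exfalso
    have h1 := Lf_l X κ i
    rw [← h, Lf_iff] at h1
    exact not_Lf_w hX u h1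

theorem s_p (s : fr X κ ≃g fr X κ) (i : Fin (N + 1)) :
    ∃ j, s (Sum.inr (Sum.inl i)) = Sum.inr (Sum.inl j) := by
  have h0 : PP (fr X κ) (s (Sum.inr (Sum.inl i))) := (PP_p i).map s
  rcases h : s (Sum.inr (Sum.inl i)) with u' | j | j
  · exfalso
    rw [h] at h0
    exact not_PP_w hN hX u' h0
  · exact ⟨j, rfl⟩
  · exfalso
    rw [h] at h0
    exact not_PP_l hN j h0

theorem s_l (s : fr X κ ≃g fr X κ) (i : Fin (N + 1)) :
    ∃ j, s (Sum.inr (Sum.inr i)) = Sum.inr (Sum.inr j) := by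
  have h0 : Lf (fr X κ) (s (Sum.inr (Sum.inr i))) := (Lf_l X κ i).map s
  rcases h : s (Sum.inr (Sum.inr i)) with u' | j | j
  · exfalso
    rw [h] at h0
    exact not_Lf_w hX u' h0
  · exfalso
    rw [h] at h0
    exact not_Lf_p hN j h0
  · exact ⟨j, rfl⟩

theorem s_p0 (hκ : ∀ u, κ u ≠ 0) (hs : ∀ i, i ≠ 0 → ∃ u, κ u = i) (s : fr X κ ≃g fr X κ) :
    s (Sum.inr (Sum.inl 0)) = Sum.inr (Sum.inl 0) := by
  obtain ⟨j, hj⟩ := s_p hN hX s 0
  rw [hj]
  by_cases h0 : j = 0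
  · rw [h0]
  · exfalso
    obtain ⟨u, hu⟩ := hs j h0
    have h1 : (fr X κ).Adj (Sum.inr (Sum.inl j)) (Sum.inl u) := (a_pw X κ u j).2 hu
    obtain ⟨u', hu'⟩ := s_w hN hX s.symm u
    have h2 : s (Sum.inl u') = Sum.inl u := by
      rw [← hu']
      exact s.toEquiv.apply_symm_apply _
    rw [← hj, ← h2, s.map_adj_iff] at h1
    exact hκ u' ((a_pw X κ u' 0).1 h1)

theorem s_pfix (hκ : ∀ u, κ u ≠ 0) (hs : ∀ i, i ≠ 0 → ∃ u, κ u = i) (s : fr X κ ≃g fr X κ)
    (i : Fin (N + 1)) : s (Sum.inr (Sum.inl i)) = Sum.inr (Sum.inl i) := by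
  have key : ∀ k : ℕ, ∀ i : Fin (N + 1), (i : ℕ) = k →
      s (Sum.inr (Sum.inl i)) = Sum.inr (Sum.inl i) := by
    intro k
    induction k using Nat.strong_induction_on with
    | _ k ih =>
      intro i hi
      by_cases hk : k = 0
      · have : i = 0 := Fin.ext (by rw [hi, hk]; rfl)
        rw [this]
        exact s_p0 hN hX hκ hs s
      · obtain ⟨i', hi'⟩ : ∃ i' : Fin (N + 1), (i' : ℕ) + 1 = k :=
          ⟨⟨k - 1, by omega⟩, by show k - 1 + 1 = k; omega⟩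
        have h1 := ih i' (by omega) i' rfl
        have h2 : (fr X κ).Adj (Sum.inr (Sum.inl i')) (Sum.inr (Sum.inl i)) := by
          rw [a_pp]; left; omega
        obtain ⟨j, hj⟩ := s_p hN hX s i
        have h3 := s.map_adj_iff.2 h2
        rw [h1, hj, a_pp] at h3
        rcases h3 with h3 | h3
        · rw [hj]
          congr 2
          exact Fin.ext (by omega)
        · exfalso
          have h4 := ih j (by omega) j rfl
          have h5 := s.injective (h4.trans hj.symm)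
          have h6 := Sum.inl.inj (Sum.inr.inj h5)
          have h7 : (j : ℕ) = i := by rw [h6]
          omega
  exact key i i rfl

theorem s_lfix (hκ : ∀ u, κ u ≠ 0) (hs : ∀ i, i ≠ 0 → ∃ u, κ u = i) (s : fr X κ ≃g fr X κ)
    (i : Fin (N + 1)) : s (Sum.inr (Sum.inr i)) = Sum.inr (Sum.inr i) := by
  obtain ⟨j, hj⟩ := s_l hN hX s i
  have h1 : (fr X κ).Adj (Sum.inr (Sum.inl i)) (Sum.inr (Sum.inr i)) := (a_pl X κ i i).2 rfl
  have h2 := s.map_adj_iff.2 h1
  rw [s_pfix hN hX hκ hs s i, hj, a_pl] at h2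
  rw [hj, ← h2]

/-- every automorphism of the framed graph comes from a class preserving automorphism -/
theorem aut_form (hκ : ∀ u, κ u ≠ 0) (hs : ∀ i, i ≠ 0 → ∃ u, κ u = i)
    (s : fr X κ ≃g fr X κ) : ∃ σ : Equiv.Perm W, (∀ u, s (Sum.inl u) = Sum.inl (σ u)) ∧
      (∀ u, κ (σ u) = κ u) ∧ (∀ u v, X.Adj (σ u) (σ v) ↔ X.Adj u v) := by
  choose f hf using s_w hN hX s
  choose g hg using s_w hN hX s.symm
  let σ : Equiv.Perm W :=
    { toFun := f
      invFun := g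
      left_inv := by
        intro u
        have h1 : s.symm (s (Sum.inl u)) = Sum.inl u := s.toEquiv.symm_apply_apply _
        rw [hf, hg] at h1
        exact Sum.inl.inj h1
      right_inv := by
        intro u
        have h1 : s (s.symm (Sum.inl u)) = Sum.inl u := s.toEquiv.apply_symm_apply _
        rw [hg, hf] at h1
        exact Sum.inl.inj h1 }
  refine ⟨σ, hf, ?_, ?_⟩
  · intro u
    have h1 : (fr X κ).Adj (Sum.inl u) (Sum.inr (Sum.inl (κ u))) := (a_wp X κ u _).2 rfl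
    have h2 := s.map_adj_iff.2 h1
    rw [hf, s_pfix hN hX hκ hs s, a_wp] at h2
    exact h2
  · intro u v
    have h2 := s.map_adj_iff (v := Sum.inl u) (w := Sum.inl v)
    rw [hf, hf, a_ww, a_ww] at h2
    exact h2

/-- the automorphism group of the framed graph -/
theorem frame_main (hκ : ∀ u, κ u ≠ 0) (hs : ∀ i, i ≠ 0 → ∃ u, κ u = i) {G : Type} [Group G]
    (ρ : G →* Equiv.Perm W) (hinj : Function.Injective ρ)
    (hadj : ∀ g u v, X.Adj (ρ g u) (ρ g v) ↔ X.Adj u v) (hκg : ∀ g u, κ (ρ g u) = κ u)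
    (hfull : ∀ σ : Equiv.Perm W, (∀ u, κ (σ u) = κ u) →
      (∀ u v, X.Adj (σ u) (σ v) ↔ X.Adj u v) → ∃ g, ρ g = σ) :
    Nonempty ((fr X κ ≃g fr X κ) ≃* G) := by
  let F : G → (fr X κ ≃g fr X κ) := fun g =>
    { toEquiv := Equiv.sumCongr (ρ g) (Equiv.refl _)
      map_rel_iff' := by
        rintro (u | i | i) (v | j | j)
        · exact hadj g u v
        · show κ (ρ g u) = j ↔ κ u = j
          rw [hκg]
        · exact Iff.rfl
        · show κ (ρ g v) = i ↔ κ v = i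
          rw [hκg]
        · exact Iff.rfl
        · exact Iff.rfl
        · exact Iff.rfl
        · exact Iff.rfl
        · exact Iff.rfl }
  have hF1 : ∀ g u, F g (Sum.inl u) = Sum.inl (ρ g u) := fun _ _ => rfl
  have hF2 : ∀ g a, F g (Sum.inr a) = Sum.inr a := fun _ _ => rfl
  let Φ : G →* (fr X κ ≃g fr X κ) :=
    { toFun := F
      map_one' := by
        ext (u | a)
        · rw [hF1, map_one]; rfl
        · rfl
      map_mul' := by
        intro g h
        ext (u | a)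
        · rw [hF1, map_mul]; rfl
        · rfl }
  have hΦinj : Function.Injective Φ := by
    intro g h hgh
    apply hinj
    ext v
    have h1 : F g (Sum.inl v) = F h (Sum.inl v) :=
      congrFun (congrArg DFunLike.coe hgh) _
    rw [hF1, hF1] at h1
    exact Sum.inl.inj h1
  have hΦsurj : Function.Surjective Φ := by
    intro f
    obtain ⟨σ, h1, h2, h3⟩ := aut_form hN hX hκ hs f
    obtain ⟨g, hg⟩ := hfull σ h2 h3
    refine ⟨g, ?_⟩
    ext (u | i | i)
    · change F g (Sum.inl u) = _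
      rw [hF1, h1, hg]
    · change F g (Sum.inr (Sum.inl i)) = _
      rw [hF2, s_pfix hN hX hκ hs f]
    · change F g (Sum.inr (Sum.inr i)) = _
      rw [hF2, s_lfix hN hX hκ hs f]
  exact ⟨(MulEquiv.ofBijective Φ ⟨hΦinj, hΦsurj⟩).symm⟩

end aut

end Pool.Agent.R715.Enc
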